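import Pool.Agent.Helper621.AutMain

namespace Pool.Agent.Results.MP_3d715f_co.EveryGroupIsAut

open Finset

/-- `B` is the set of blocks of a 2-(v,k,1) design on the point set `Fin v`: all blocks have
`k` points and any two distinct points lie in exactly one block. -/
def IsBIBD (v k : ℕ) (B : Finset (Finset (Fin v))) : Prop :=
  (∀ b ∈ B, b.card = k) ∧ ∀ x y : Fin v, x ≠ y → ∃! b, b ∈ B ∧ x ∈ b ∧ y ∈ b

/-- The full automorphism group: all permutations of the points that map `B` onto `B`. -/
def autGroup {v : ℕ} (B : Finset (Finset (Fin v))) : Subgroup (Equiv.Perm (Fin v)) where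
  carrier := {σ | B.image (fun b => b.image σ) = B}
  mul_mem' := by
    intro σ τ hσ hτ
    change B.image (fun b => b.image (σ * τ)) = B
    have h1 : (fun b : Finset (Fin v) => b.image (σ * τ)) =
        (fun b : Finset (Fin v) => b.image σ) ∘ (fun b : Finset (Fin v) => b.image τ) := by
      funext b
      simp only [Function.comp_apply, image_image]
      rfl
    rw [h1, ← image_image]
    change B.image (fun b => b.image τ) = B at hτ
    change B.image (fun b => b.image σ) = B at hσ
    rw [hτ, hσ]
  one_mem' := by
    change B.image (fun b => b.image (1 : Equiv.Perm (Fin v))) = B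
    simp
  inv_mem' := by
    intro σ hσ
    change B.image (fun b => b.image σ) = B at hσ
    change B.image (fun b => b.image (σ⁻¹ : Equiv.Perm (Fin v))) = B
    conv_lhs => rw [← hσ]
    rw [image_image]
    have h1 : ((fun b : Finset (Fin v) => b.image (σ⁻¹ : Equiv.Perm (Fin v))) ∘
        fun b : Finset (Fin v) => b.image σ) = id := by
      funext b
      simp only [Function.comp_apply, image_image, id]
      have : ((σ⁻¹ : Equiv.Perm (Fin v)) : Fin v → Fin v) ∘ σ = id := by
        funext x
        simp
      rw [this, image_id]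
    rw [h1, image_id]

theorem mem_autGroup {v : ℕ} (B : Finset (Finset (Fin v))) (σ : Equiv.Perm (Fin v)) :
    σ ∈ autGroup B ↔ B.image (fun b => b.image σ) = B := Iff.rfl

/-- For every `k ≥ 10` and every finite group `G` there is a 2-(v,k,1) design whose full
automorphism group is isomorphic to `G`. -/
theorem result.{u} (k : ℕ) (hk : 10 ≤ k) (G : Type u) [Group G] [Finite G] :
    ∃ (v : ℕ) (B : Finset (Finset (Fin v))),
      k ≤ v ∧ IsBIBD v k B ∧ Nonempty (autGroup B ≃* G) := by
  classical
  -- a copy of `G` in `Type`
  obtain ⟨n, ⟨e⟩⟩ := Finite.exists_equiv_fin G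
  let f : G →* Equiv.Perm (Fin n) :=
    { toFun := fun g => (e.symm.trans (Equiv.mulLeft g)).trans e
      map_one' := by ext x; simp
      map_mul' := fun g h => by ext x; simp }
  have hf : Function.Injective f := by
    intro g h hgh
    have h1 := congrArg (fun σ : Equiv.Perm (Fin n) => σ (e 1)) hgh
    simpa [f] using h1
  obtain ⟨v, B, hv, hcard, hpair, ψ, hψ, hB⟩ :=
    Pool.Agent.Helper621.main_aut k hk f.range
  refine ⟨v, B, hv, ⟨hcard, hpair⟩, ?_⟩
  have hrange : ψ.range = autGroup B := by
    ext σ
    rw [mem_autGroup, hB, MonoidHom.mem_range]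
  exact ⟨((MulEquiv.subgroupCongr hrange).symm.trans (MonoidHom.ofInjective hψ).symm).trans
    (MonoidHom.ofInjective hf).symm⟩

end Pool.Agent.Results.MP_3d715f_co.EveryGroupIsAut
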